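import Mathlib

/-!
# Linear forms in positive integers with exponent below two

For every `m ≥ 2` there are real numbers `θ¹, ..., θᵐ`, linearly independent over `ℤ` together
with `1`, whose exponent `ω₊` for positive integer vectors is at most the golden ratio.

Sketch: choose rationals `ρ_k = u_k / D_k` and positive integer vectors
`n_{k+1} = n_k + D_k g_k`, where `ρ_{k+1}` is a very good approximation of
`(u_k y + v_k) / (D_k y + w_k)` with `u_k w_k - v_k D_k = 1` and `y = A_k + √2`,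
`A_k` about `D_k ^ φ`. Modulo `ℤᵐ` the point `Θ` is the limit of `n_k ρ_k`.
-/

namespace Pool.Agent.Results.MP_fe6546_nt.Full

open Filter Topology

/-! ### The statement -/

/-- The distance from a real number to the nearest integer. -/
noncomputable def distInt (y : ℝ) : ℝ := |y - round y|

/-- The function `ψ_{+;Θ}(t)`: the minimum of the distances to the nearest integer of
`θ¹ x₁ + ... + θᵐ xₘ` over all vectors of positive integers with `max xᵢ ≤ t`. -/
noncomputable def psiPlus {m : ℕ} (Θ : Fin m → ℝ) (t : ℝ) : ℝ :=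
  sInf {z : ℝ | ∃ x : Fin m → ℕ, (∀ i, 0 < x i ∧ (x i : ℝ) ≤ t) ∧ z = distInt (∑ i, Θ i * x i)}

/-- The exponent `ω₊(Θ)`: the supremum of the real `γ` such that
`liminf_{t → ∞} t^γ ψ_{+;Θ}(t)` is finite. -/
noncomputable def omegaPlus {m : ℕ} (Θ : Fin m → ℝ) : EReal :=
  sSup ((fun γ : ℝ => (γ : EReal)) ''
    {γ : ℝ | liminf (fun t : ℝ => ((t ^ γ * psiPlus Θ t : ℝ) : EReal)) atTop < ⊤})

/-! ### One stage of the construction -/

theorem two_sq_ne (n p : ℤ) (hn : n ≠ 0) : 2 * n ^ 2 - p ^ 2 ≠ 0 := by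
  intro h
  have hn' : (n : ℝ) ≠ 0 := by exact_mod_cast hn
  have h1 : ((p : ℝ) / n) ^ 2 = 2 := by
    have : (2 * (n : ℝ) ^ 2 - (p : ℝ) ^ 2) = 0 := by exact_mod_cast h
    field_simp
    linarith
  have h2 : |(p : ℝ) / n| = √2 := by
    rw [← h1, Real.sqrt_sq_eq_abs]
  apply irrational_sqrt_two
  refine ⟨|(p : ℚ) / n|, ?_⟩
  rw [← h2]
  push_cast
  rfl

theorem sqrt2_lower (n : ℤ) (hn : n ≠ 0) (p : ℤ) :
    1 / (4 * |(n : ℝ)|) ≤ |n * √2 - p| := by
  have hn1 : (1 : ℝ) ≤ |(n : ℝ)| := by exact_mod_cast Int.one_le_abs hn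
  by_cases h : |n * √2 - p| ≤ 1
  · have h1 : (1 : ℝ) ≤ |2 * (n : ℝ) ^ 2 - (p : ℝ) ^ 2| := by
      exact_mod_cast Int.one_le_abs (two_sq_ne n p hn)
    have h2 : |n * √2 - p| * |n * √2 + p| = |2 * (n : ℝ) ^ 2 - (p : ℝ) ^ 2| := by
      rw [← abs_mul]
      congr 1
      have : √2 ^ 2 = 2 := Real.sq_sqrt (by norm_num)
      linear_combination (n : ℝ) ^ 2 * this
    have hs : √2 ≤ 3 / 2 := by
      rw [Real.sqrt_le_left (by norm_num)]; norm_num
    have h3 : |n * √2 + p| ≤ 4 * |(n : ℝ)| := by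
      have e : n * √2 + p = 2 * (n * √2) - (n * √2 - p) := by ring
      rw [e]
      refine (abs_sub _ _).trans ?_
      rw [abs_mul, abs_mul, abs_of_nonneg (Real.sqrt_nonneg 2), abs_two]
      nlinarith [abs_nonneg (n : ℝ)]
    rw [div_le_iff₀ (by positivity)]
    calc (1 : ℝ) ≤ |n * √2 - p| * |n * √2 + p| := by rw [h2]; exact h1
      _ ≤ |n * √2 - p| * (4 * |(n : ℝ)|) := by gcongr
  · push Not at h
    refine le_trans ?_ h.le
    rw [div_le_one (by positivity)]
    linarith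

/-- The real number used at one stage. -/
noncomputable def al (u v : ℤ) (D w : ℕ) (A : ℕ) : ℝ :=
  (u * (A + √2) + v) / (D * (A + √2) + w)

theorem al_lower (u v : ℤ) (D w A : ℕ) (hD : 0 < D) (hw : w ≤ D) (hA : 2 ≤ A)
    (hdet : u * w - v * D = 1) (j : ℕ) (hj : 0 < j) (p : ℤ) :
    min (1 / (8 * (j : ℝ))) (1 / (4 * A * D)) ≤ |j * al u v D w A - p| := by
  have hD' : (1 : ℝ) ≤ D := by exact_mod_cast hD
  have hw' : (w : ℝ) ≤ D := by exact_mod_cast hw
  have hw0 : (0 : ℝ) ≤ w := by positivity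
  have hA' : (2 : ℝ) ≤ A := by exact_mod_cast hA
  have hj' : (1 : ℝ) ≤ j := by exact_mod_cast hj
  have hs : √2 ≤ 3 / 2 := by
    rw [Real.sqrt_le_left (by norm_num)]; norm_num
  have hs1 : 1 ≤ √2 := by
    rw [Real.one_le_sqrt]; norm_num
  set y : ℝ := A + √2 with hy
  set q : ℝ := D * y + w with hq
  have hqlow : (A : ℝ) * D + D ≤ q := by rw [hq, hy]; nlinarith
  have hqlow' : 3 * (D : ℝ) ≤ q := by nlinarith
  have hq0 : 0 < q := by linarith
  have hqup : q ≤ 4 * A * D := by rw [hq, hy]; nlinarith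
  set n : ℤ := j * u - p * D with hn
  set mm : ℤ := p * w - j * v with hmm
  have e1 : (mm : ℝ) * D + n * w = j := by
    have : mm * D + n * w = j := by
      rw [hn, hmm]; linear_combination (j : ℤ) * hdet
    exact_mod_cast this
  have e2 : j * al u v D w A - p = (n * y - mm) / q := by
    unfold al
    rw [← hy, ← hq, eq_div_iff hq0.ne', sub_mul, mul_assoc, div_mul_cancel₀ _ hq0.ne', hq, hn, hmm]
    push_cast
    ring
  rw [e2, abs_div, abs_of_pos hq0]
  by_cases h1 : 1 ≤ |(n : ℝ) * y - mm|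
  · refine (min_le_right _ _).trans ?_
    rw [div_le_div_iff₀ (by positivity) hq0]
    nlinarith [abs_nonneg ((n : ℝ) * y - mm)]
  · push Not at h1
    have hn0 : n ≠ 0 := by
      intro h0
      rw [h0] at h1 e1
      have hm0 : mm ≠ 0 := by
        intro h2
        rw [h2] at e1
        have : (j : ℝ) = 0 := by rw [← e1]; simp
        linarith
      have : (1 : ℝ) ≤ |(mm : ℝ)| := by exact_mod_cast Int.one_le_abs hm0
      simp at h1
      linarith
    refine (min_le_left _ _).trans ?_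
    have hn1 : (1 : ℝ) ≤ |(n : ℝ)| := by exact_mod_cast Int.one_le_abs hn0
    have h2 : 1 / (4 * |(n : ℝ)|) ≤ |(n : ℝ) * y - mm| := by
      have := sqrt2_lower n hn0 (mm - n * A)
      have e3 : (n : ℝ) * y - mm = n * √2 - ((mm - n * A : ℤ) : ℝ) := by
        rw [hy]; push_cast; ring
      rw [e3]
      exact this
    have h3 : |(n : ℝ)| * q ≤ j + D := by
      have e4 : (n : ℝ) * q = j + (n * y - mm) * D := by
        rw [hq]; linear_combination e1
      rw [← abs_of_pos hq0, ← abs_mul, e4]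
      refine (abs_add_le _ _).trans ?_
      rw [abs_mul, abs_of_nonneg (by positivity : (0 : ℝ) ≤ j),
        abs_of_nonneg (by positivity : (0 : ℝ) ≤ D)]
      nlinarith
    have h4 : (D : ℝ) ≤ j := by nlinarith
    have h5 : |(n : ℝ)| * q ≤ 2 * j := by linarith
    rw [div_le_div_iff₀ (by positivity) hq0]
    rw [div_le_iff₀ (by positivity)] at h2
    nlinarith [abs_nonneg ((n : ℝ) * y - mm)]

theorem al_irrational (u v : ℤ) (D w A : ℕ) (hD : 0 < D) (hw : w ≤ D) (hA : 2 ≤ A)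
    (hdet : u * w - v * D = 1) : Irrational (al u v D w A) := by
  rintro ⟨r, hr⟩
  have hd : 0 < r.den := r.den_pos
  have := al_lower u v D w A hD hw hA hdet r.den hd r.num
  rw [← hr] at this
  have h0 : ((r.den : ℝ) * (r : ℝ) - (r.num : ℝ)) = 0 := by
    have h1 : (r.den : ℚ) * r = r.num := Rat.den_mul_eq_num r
    have h2 : (r.den : ℝ) * (r : ℝ) = (r.num : ℝ) := by exact_mod_cast h1
    rw [h2]; ring
  rw [h0, abs_zero] at this
  have hpos : 0 < min (1 / (8 * (r.den : ℝ))) (1 / (4 * A * D)) := by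
    have : (0 : ℝ) < r.den := by exact_mod_cast hd
    have : (0 : ℝ) < A := by exact_mod_cast (by omega : 0 < A)
    have : (0 : ℝ) < D := by exact_mod_cast hD
    positivity
  linarith

theorem al_dist (u v : ℤ) (D w A : ℕ) (hD : 0 < D) (hw : w ≤ D) (hA : 2 ≤ A)
    (hdet : u * w - v * D = 1) :
    |al u v D w A - u / D| ≤ 1 / (A * (D : ℝ) ^ 2) ∧
      1 / (4 * A * (D : ℝ) ^ 2) ≤ |al u v D w A - u / D| := by
  have hD' : (1 : ℝ) ≤ D := by exact_mod_cast hD
  have hw' : (w : ℝ) ≤ D := by exact_mod_cast hw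
  have hw0 : (0 : ℝ) ≤ w := by positivity
  have hA' : (2 : ℝ) ≤ A := by exact_mod_cast hA
  have hs : √2 ≤ 3 / 2 := by
    rw [Real.sqrt_le_left (by norm_num)]; norm_num
  have hs1 : 1 ≤ √2 := by
    rw [Real.one_le_sqrt]; norm_num
  set y : ℝ := A + √2 with hy
  set q : ℝ := D * y + w with hq
  have hqlow : (A : ℝ) * D ≤ q := by rw [hq, hy]; nlinarith
  have hq0 : 0 < q := by nlinarith
  have hqup : q ≤ 4 * A * D := by rw [hq, hy]; nlinarith
  have hdet' : (u : ℝ) * w - v * D = 1 := by exact_mod_cast hdet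
  have e : al u v D w A - u / D = -1 / (D * q) := by
    unfold al
    rw [← hy, ← hq, div_sub_div _ _ hq0.ne' (by positivity), div_eq_div_iff (by positivity)
      (by positivity), hq]
    linear_combination (-(D * y + w) * D : ℝ) * hdet'
  rw [e, abs_div, abs_neg, abs_one, abs_of_pos (by positivity)]
  constructor
  · apply one_div_le_one_div_of_le (by positivity)
    nlinarith
  · apply one_div_le_one_div_of_le (by positivity)
    nlinarith

theorem exists_rat_near (ξ : ℝ) (hξ : Irrational ξ) (N : ℕ) :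
    ∃ r : ℚ, N ≤ r.den ∧ |ξ - r| < 1 / (r.den : ℝ) ^ 2 := by
  by_contra hcon
  push Not at hcon
  apply Real.infinite_rat_abs_sub_lt_one_div_den_sq_of_irrational hξ
  have hsub : {r : ℚ | |ξ - r| < 1 / (r.den : ℝ) ^ 2} ⊆
      ⋃ d ∈ Set.Icc 1 N, (fun a : ℤ => (a : ℚ) / d) '' Set.Icc (-⌈(|ξ| + 1) * N⌉) ⌈(|ξ| + 1) * N⌉ := by
    intro r hr
    have hr' : |ξ - r| < 1 / (r.den : ℝ) ^ 2 := hr
    have hden : r.den < N := by
      by_contra h
      push Not at h
      exact absurd hr' (not_lt.2 (hcon r h))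
    have hd1 : (1 : ℝ) ≤ r.den := by exact_mod_cast r.den_pos
    have h1 : 1 / (r.den : ℝ) ^ 2 ≤ 1 := by
      rw [div_le_one (by positivity)]; nlinarith
    have h2 : |(r : ℝ)| ≤ |ξ| + 1 := by
      have : (r : ℝ) = ξ - (ξ - r) := by ring
      rw [this]
      refine (abs_sub _ _).trans ?_
      linarith
    have h3 : |(r.num : ℝ)| ≤ (|ξ| + 1) * N := by
      have e : (r.num : ℝ) = r * r.den := by
        have := Rat.mul_den_eq_num r
        exact_mod_cast this.symm
      rw [e, abs_mul, abs_of_nonneg (by positivity : (0 : ℝ) ≤ r.den)]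
      have : (r.den : ℝ) ≤ N := by exact_mod_cast hden.le
      gcongr
    simp only [Set.mem_iUnion, Set.mem_image, Set.mem_Icc]
    refine ⟨r.den, ⟨r.den_pos, hden.le⟩, r.num, ⟨?_, ?_⟩, ?_⟩
    · have h4 : -((⌈(|ξ| + 1) * N⌉ : ℤ) : ℝ) ≤ r.num := by
        have := Int.le_ceil ((|ξ| + 1) * (N : ℝ))
        have := neg_abs_le (r.num : ℝ)
        linarith
      exact_mod_cast h4
    · have h4 : (r.num : ℝ) ≤ ((⌈(|ξ| + 1) * N⌉ : ℤ) : ℝ) := by
        have := Int.le_ceil ((|ξ| + 1) * (N : ℝ))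
        have := le_abs_self (r.num : ℝ)
        linarith
      exact_mod_cast h4
    · exact Rat.num_div_den r
  refine Set.Finite.subset ?_ hsub
  apply Set.Finite.biUnion (Set.finite_Icc 1 N)
  intro d _
  exact (Set.finite_Icc _ _).image _

/-- One stage of the construction. -/
theorem step (ρ : ℚ) (A N : ℕ) (hA : 2 ≤ A) : ∃ ρ' : ℚ, N ≤ ρ'.den ∧
    |(ρ' : ℝ) - ρ| ≤ 2 / (A * (ρ.den : ℝ) ^ 2) ∧
    1 / (8 * A * (ρ.den : ℝ) ^ 2) ≤ |(ρ' : ℝ) - ρ| ∧
    ∀ j : ℕ, 0 < j → ∀ p : ℤ,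
      min (1 / (8 * (j : ℝ))) (1 / (4 * A * ρ.den)) - j / (ρ'.den : ℝ) ^ 2 ≤ |j * (ρ' : ℝ) - p| := by
  have hD : 0 < ρ.den := ρ.den_pos
  obtain ⟨v, w, hw, hdet⟩ : ∃ (v : ℤ) (w : ℕ), w ≤ ρ.den ∧ ρ.num * w - v * ρ.den = 1 := by
    have hc : IsCoprime ρ.num (ρ.den : ℤ) := by
      rw [Int.isCoprime_iff_gcd_eq_one]
      exact ρ.reduced
    obtain ⟨a, b, hab⟩ := hc
    have hDZ : (0 : ℤ) < ρ.den := by exact_mod_cast hD
    refine ⟨-b - ρ.num * (a / ρ.den), (a % ρ.den).toNat, ?_, ?_⟩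
    · have := Int.emod_lt_of_pos a hDZ
      omega
    · have h1 : ((a % ρ.den).toNat : ℤ) = a % ρ.den := Int.toNat_of_nonneg (Int.emod_nonneg _ hDZ.ne')
      rw [h1]
      have h2 := Int.emod_add_mul_ediv a ρ.den
      linear_combination hab + ρ.num * h2
  set u := ρ.num with hu
  set D := ρ.den with hDdef
  have hD' : (1 : ℝ) ≤ D := by exact_mod_cast hD
  have hA' : (2 : ℝ) ≤ A := by exact_mod_cast hA
  obtain ⟨r, hrN, hr⟩ := exists_rat_near (al u v D w A) (al_irrational u v D w A hD hw hA hdet)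
    (max N (8 * A * D ^ 2))
  have hN1 : N ≤ r.den := (le_max_left _ _).trans hrN
  have hN2 : 8 * A * D ^ 2 ≤ r.den := (le_max_right _ _).trans hrN
  have hN2' : 8 * A * (D : ℝ) ^ 2 ≤ r.den := by exact_mod_cast hN2
  have hd1 : (1 : ℝ) ≤ r.den := by exact_mod_cast r.den_pos
  have hρ : (ρ : ℝ) = u / D := by
    have : ρ = (u : ℚ) / D := (Rat.num_div_den ρ).symm
    rw [this]; push_cast; rfl
  obtain ⟨d1, d2⟩ := al_dist u v D w A hD hw hA hdet
  have hsm : 1 / (r.den : ℝ) ^ 2 ≤ 1 / (8 * A * (D : ℝ) ^ 2) := by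
    apply one_div_le_one_div_of_le (by positivity)
    nlinarith
  set X : ℝ := 1 / (A * (D : ℝ) ^ 2) with hX
  have hX0 : 0 < X := by positivity
  have g1 : 1 / (8 * A * (D : ℝ) ^ 2) = X / 8 := by rw [hX]; field_simp
  have g2 : 1 / (4 * A * (D : ℝ) ^ 2) = X / 4 := by rw [hX]; field_simp
  have g3 : 2 / (A * (D : ℝ) ^ 2) = 2 * X := by rw [hX]; field_simp
  rw [g1] at hsm
  rw [g2] at d2
  refine ⟨r, hN1, ?_, ?_, ?_⟩
  · rw [hρ, g3]
    have e : (r : ℝ) - u / D = (al u v D w A - u / D) - (al u v D w A - r) := by ring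
    rw [e]
    refine (abs_sub _ _).trans ?_
    linarith
  · rw [hρ, g1]
    have e : al u v D w A - u / D = ((r : ℝ) - u / D) + (al u v D w A - r) := by ring
    rw [e] at d2
    have := abs_add_le ((r : ℝ) - u / D) (al u v D w A - r)
    linarith
  · intro j hj p
    have h1 := al_lower u v D w A hD hw hA hdet j hj p
    have e : j * al u v D w A - p = (j * (r : ℝ) - p) + j * (al u v D w A - r) := by ring
    rw [e] at h1
    have h2 := abs_add_le (j * (r : ℝ) - p) (j * (al u v D w A - r))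
    have h3 : |(j : ℝ) * (al u v D w A - r)| ≤ j / (r.den : ℝ) ^ 2 := by
      rw [abs_mul, abs_of_nonneg (by positivity : (0 : ℝ) ≤ j), div_eq_mul_one_div]
      gcongr
    linarith

/-! ### The sequences and the limit -/

/-- Size parameter attached to a denominator. -/
noncomputable def sz (D : ℕ) : ℕ := ⌈(D : ℝ) ^ Real.goldenRatio⌉₊ + 1

theorem sz_two {D : ℕ} (hD : 0 < D) : 2 ≤ sz D := by
  unfold sz
  have : 0 < ⌈(D : ℝ) ^ Real.goldenRatio⌉₊ := by
    rw [Nat.ceil_pos]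
    have : (0 : ℝ) < D := by exact_mod_cast hD
    positivity
  omega

theorem sz_low (D : ℕ) : (D : ℝ) ^ Real.goldenRatio ≤ sz D := by
  unfold sz
  push_cast
  have := Nat.le_ceil ((D : ℝ) ^ Real.goldenRatio)
  linarith

theorem sz_up {D : ℕ} (hD : 0 < D) : (sz D : ℝ) ≤ 3 * (D : ℝ) ^ Real.goldenRatio := by
  unfold sz
  push_cast
  have h1 : (1 : ℝ) ≤ D := by exact_mod_cast hD
  have h2 : (1 : ℝ) ≤ (D : ℝ) ^ Real.goldenRatio :=
    Real.one_le_rpow h1 Real.goldenRatio_pos.le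
  have := Nat.ceil_lt_add_one (a := (D : ℝ) ^ Real.goldenRatio) (by positivity)
  linarith

theorem sz_ge {D : ℕ} (hD : 0 < D) : (D : ℝ) ≤ sz D := by
  have h1 : (1 : ℝ) ≤ D := by exact_mod_cast hD
  calc (D : ℝ) = (D : ℝ) ^ (1 : ℝ) := (Real.rpow_one _).symm
    _ ≤ (D : ℝ) ^ Real.goldenRatio :=
        Real.rpow_le_rpow_of_exponent_le h1 Real.one_lt_goldenRatio.le
    _ ≤ sz D := sz_low D

/-- The sequence of rational numbers. -/
noncomputable def rho (m : ℕ) : ℕ → ℚ
  | 0 => 0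
  | k + 1 => Classical.choose (step (rho m k) (sz (rho m k).den)
      (200 * m * sz (rho m k).den * (rho m k).den * (3 * m * (rho m k).den) ^ (k + 1))
      (sz_two (rho m k).den_pos))

noncomputable def dd (m k : ℕ) : ℕ := (rho m k).den

noncomputable def aa (m k : ℕ) : ℕ := sz (dd m k)

theorem dd_pos (m k : ℕ) : 0 < dd m k := (rho m k).den_pos

theorem aa_two (m k : ℕ) : 2 ≤ aa m k := sz_two (dd_pos m k)

theorem aa_ge (m k : ℕ) : (dd m k : ℝ) ≤ aa m k := sz_ge (dd_pos m k)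

theorem rho_spec (m k : ℕ) :
    200 * m * aa m k * dd m k * (3 * m * dd m k) ^ (k + 1) ≤ dd m (k + 1) ∧
    |(rho m (k + 1) : ℝ) - rho m k| ≤ 2 / (aa m k * (dd m k : ℝ) ^ 2) ∧
    1 / (8 * aa m k * (dd m k : ℝ) ^ 2) ≤ |(rho m (k + 1) : ℝ) - rho m k| ∧
    ∀ j : ℕ, 0 < j → ∀ p : ℤ,
      min (1 / (8 * (j : ℝ))) (1 / (4 * aa m k * dd m k)) - j / (dd m (k + 1) : ℝ) ^ 2
        ≤ |j * (rho m (k + 1) : ℝ) - p| :=
  Classical.choose_spec (step (rho m k) (sz (rho m k).den)
      (200 * m * sz (rho m k).den * (rho m k).den * (3 * m * (rho m k).den) ^ (k + 1))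
      (sz_two (rho m k).den_pos))

theorem dd_zero (m : ℕ) : dd m 0 = 1 := by simp [dd, rho]

theorem dd_succ_big {m : ℕ} (hm : 0 < m) (k : ℕ) :
    200 * m * (aa m k * dd m k) ≤ dd m (k + 1) := by
  refine le_trans ?_ (rho_spec m k).1
  have h1 : 0 < 3 * m * dd m k := by have := dd_pos m k; positivity
  have h2 : 1 ≤ (3 * m * dd m k) ^ (k + 1) := Nat.one_le_pow _ _ h1
  calc 200 * m * (aa m k * dd m k) = 200 * m * aa m k * dd m k * 1 := by ring
    _ ≤ _ := Nat.mul_le_mul_left _ h2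

theorem dd_succ_pow {m : ℕ} (hm : 0 < m) (k : ℕ) :
    (3 * m * dd m k) ^ (k + 1) ≤ dd m (k + 1) := by
  refine le_trans ?_ (rho_spec m k).1
  have h1 := dd_pos m k
  have h2 := aa_two m k
  have h3 : 1 ≤ 200 * m * aa m k * dd m k := by
    have : 0 < aa m k := by omega
    exact Nat.one_le_iff_ne_zero.2 (by positivity)
  exact Nat.le_mul_of_pos_left _ h3

theorem dd_succ_three {m : ℕ} (hm : 0 < m) (k : ℕ) : 3 * dd m k ≤ dd m (k + 1) := by
  have h := dd_succ_big hm k
  have h2 := aa_two m k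
  nlinarith [dd_pos m k, Nat.mul_le_mul hm h2, Nat.zero_le (m * aa m k * dd m k),
    Nat.mul_le_mul_right (dd m k) (Nat.mul_le_mul hm h2)]

theorem dd_ge {m : ℕ} (hm : 0 < m) (k : ℕ) : k + 1 ≤ dd m k := by
  induction k with
  | zero => rw [dd_zero]
  | succ k ih =>
    have := dd_succ_three hm k
    omega

/-- Increment vectors. -/
def gg (m k : ℕ) (i : Fin m) : ℕ := if k % m = i then 2 else 1

theorem gg_bounds (m k : ℕ) (i : Fin m) : 1 ≤ gg m k i ∧ gg m k i ≤ 2 := by
  unfold gg; split <;> simp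

/-- Direction vectors. -/
noncomputable def nv (m : ℕ) : ℕ → Fin m → ℕ
  | 0, _ => 0
  | k + 1, i => nv m k i + dd m k * gg m k i

/-- Integer shifts. -/
noncomputable def zv (m : ℕ) : ℕ → Fin m → ℤ
  | 0, _ => 0
  | k + 1, i => zv m k i + (rho m k).num * gg m k i

theorem nv_le {m : ℕ} (hm : 0 < m) (k : ℕ) (i : Fin m) : nv m k i ≤ dd m k := by
  induction k with
  | zero => simp [nv]
  | succ k ih =>
    have h1 := (gg_bounds m k i).2
    have h2 := dd_succ_three hm k
    have : nv m (k + 1) i = nv m k i + dd m k * gg m k i := rfl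
    rw [this]
    nlinarith

theorem nv_succ_bounds {m : ℕ} (hm : 0 < m) (k : ℕ) (i : Fin m) :
    dd m k ≤ nv m (k + 1) i ∧ nv m (k + 1) i ≤ 3 * dd m k := by
  have h0 : nv m (k + 1) i = nv m k i + dd m k * gg m k i := rfl
  have h1 := gg_bounds m k i
  have h2 := nv_le hm k i
  rw [h0]
  constructor <;> nlinarith [h1.1, h1.2]

/-- The rational approximations. -/
noncomputable def rr (m k : ℕ) (i : Fin m) : ℝ := nv m k i * (rho m k : ℝ) - zv m k i

theorem rr_succ (m k : ℕ) (i : Fin m) :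
    rr m (k + 1) i - rr m k i = nv m (k + 1) i * ((rho m (k + 1) : ℝ) - rho m k) := by
  unfold rr
  have h0 : (nv m (k + 1) i : ℝ) = nv m k i + dd m k * gg m k i := by
    have : nv m (k + 1) i = nv m k i + dd m k * gg m k i := rfl
    rw [this]; push_cast; ring
  have h1 : (zv m (k + 1) i : ℝ) = zv m k i + (rho m k).num * gg m k i := by
    have : zv m (k + 1) i = zv m k i + (rho m k).num * gg m k i := rfl
    rw [this]; push_cast; ring
  have h2 : (dd m k : ℝ) * (rho m k : ℝ) = (rho m k).num := by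
    have := Rat.den_mul_eq_num (rho m k)
    unfold dd
    exact_mod_cast this
  rw [h1, h0]
  linear_combination (gg m k i : ℝ) * h2

/-- Error scale. -/
noncomputable def ee (m k : ℕ) : ℝ := 6 / (aa m k * dd m k)

theorem ee_pos (m k : ℕ) : 0 < ee m k := by
  unfold ee
  have h1 : (0 : ℝ) < dd m k := by exact_mod_cast dd_pos m k
  have h2 : (0 : ℝ) < aa m k := by have := aa_two m k; exact_mod_cast (by omega : 0 < aa m k)
  positivity

theorem prod_succ {m : ℕ} (hm : 0 < m) (k : ℕ) :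
    200 * m * ((aa m k : ℝ) * dd m k) ≤ aa m (k + 1) * dd m (k + 1) := by
  have h1 : 200 * (m : ℝ) * ((aa m k : ℝ) * dd m k) ≤ dd m (k + 1) := by
    exact_mod_cast dd_succ_big hm k
  have h2 : (1 : ℝ) ≤ aa m (k + 1) := by
    have := aa_two m (k + 1); exact_mod_cast (by omega : 1 ≤ aa m (k + 1))
  have h3 : (0 : ℝ) ≤ dd m (k + 1) := by positivity
  nlinarith

theorem ee_succ {m : ℕ} (hm : 0 < m) (k : ℕ) : ee m (k + 1) ≤ ee m k / 2 := by
  unfold ee
  have h1 : (0 : ℝ) < dd m k := by exact_mod_cast dd_pos m k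
  have h2 : (0 : ℝ) < aa m k := by have := aa_two m k; exact_mod_cast (by omega : 0 < aa m k)
  have h3 := prod_succ hm k
  have hm' : (1 : ℝ) ≤ m := by exact_mod_cast hm
  have h4 : 2 * ((aa m k : ℝ) * dd m k) ≤ aa m (k + 1) * dd m (k + 1) := by
    have : 0 < (aa m k : ℝ) * dd m k := by positivity
    nlinarith
  rw [div_div]
  apply div_le_div_of_nonneg_left (by norm_num) (by positivity)
  linarith

theorem ee_add {m : ℕ} (hm : 0 < m) (k n : ℕ) : ee m (k + n) ≤ ee m k / 2 ^ n := by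
  induction n with
  | zero => simp
  | succ n ih =>
    have := ee_succ hm (k + n)
    have e : k + (n + 1) = k + n + 1 := by ring
    rw [e, pow_succ, ← div_div]
    linarith

theorem rr_dist {m : ℕ} (hm : 0 < m) (k : ℕ) (i : Fin m) :
    dist (rr m k i) (rr m (k + 1) i) ≤ ee m k := by
  rw [dist_comm, Real.dist_eq, rr_succ, abs_mul]
  have h1 := (rho_spec m k).2.1
  have h2 : (nv m (k + 1) i : ℝ) ≤ 3 * dd m k := by exact_mod_cast (nv_succ_bounds hm k i).2
  have h3 : (0 : ℝ) < dd m k := by exact_mod_cast dd_pos m k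
  have h4 : (0 : ℝ) < aa m k := by have := aa_two m k; exact_mod_cast (by omega : 0 < aa m k)
  rw [abs_of_nonneg (by positivity : (0 : ℝ) ≤ nv m (k + 1) i)]
  calc (nv m (k + 1) i : ℝ) * |(rho m (k + 1) : ℝ) - rho m k|
      ≤ (3 * dd m k) * (2 / (aa m k * (dd m k : ℝ) ^ 2)) := by gcongr
    _ = ee m k := by unfold ee; field_simp; ring

theorem exists_limit {m : ℕ} (hm : 0 < m) (i : Fin m) :
    ∃ θ : ℝ, ∀ k, |θ - rr m k i| ≤ 2 * ee m k := by
  have hcs : CauchySeq (fun k => rr m k i) := by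
    apply cauchySeq_of_le_geometric_two (C := 2 * ee m 0)
    intro n
    refine (rr_dist hm n i).trans ?_
    have := ee_add hm 0 n
    rw [zero_add] at this
    have e : 2 * ee m 0 / 2 / 2 ^ n = ee m 0 / 2 ^ n := by ring
    rw [e]; exact this
  obtain ⟨θ, hθ⟩ := cauchySeq_tendsto_of_complete hcs
  refine ⟨θ, fun k => ?_⟩
  have h1 : Tendsto (fun n => rr m (k + n) i) atTop (𝓝 θ) := by
    have := hθ.comp (tendsto_add_atTop_nat k)
    refine this.congr ?_
    intro n
    simp [add_comm]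
  have h2 := dist_le_of_le_geometric_two_of_tendsto₀ (C := 2 * ee m k) (f := fun n => rr m (k + n) i)
    (fun n => by
      refine (rr_dist hm (k + n) i).trans ?_
      have := ee_add hm k n
      have e : 2 * ee m k / 2 / 2 ^ n = ee m k / 2 ^ n := by ring
      rw [e]; exact this) h1
  rw [dist_comm, Real.dist_eq] at h2
  simpa using h2

/-- The real numbers of the construction. -/
noncomputable def th {m : ℕ} (hm : 0 < m) (i : Fin m) : ℝ := Classical.choose (exists_limit hm i)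

theorem th_spec {m : ℕ} (hm : 0 < m) (i : Fin m) (k : ℕ) :
    |th hm i - rr m k i| ≤ 2 * ee m k :=
  Classical.choose_spec (exists_limit hm i) k

/-! ### The estimate at one level -/

section est

variable {m : ℕ} (hm : 0 < m)

include hm

/-- The level `k` inner product with a vector. -/
noncomputable def jj (m k : ℕ) (y : Fin m → ℤ) : ℤ := ∑ i, y i * nv m k i

/-- The linear form minus its rational approximation. -/
noncomputable def er (k : ℕ) (y : Fin m → ℤ) : ℝ := ∑ i, (y i : ℝ) * (th hm i - rr m k i)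

theorem form_eq (k : ℕ) (y : Fin m → ℤ) : ∃ z : ℤ,
    ∑ i, th hm i * (y i : ℝ) = jj m k y * (rho m k : ℝ) - z + er hm k y := by
  refine ⟨∑ i, y i * zv m k i, ?_⟩
  unfold jj er rr
  push_cast
  rw [Finset.sum_mul, ← Finset.sum_sub_distrib, ← Finset.sum_add_distrib]
  apply Finset.sum_congr rfl
  intro i _
  ring

theorem er_bound (k : ℕ) (y : Fin m → ℤ) (T : ℝ) (hy : ∀ i, |(y i : ℝ)| ≤ T) :
    |er hm k y| ≤ m * T * (2 * ee m k) := by
  unfold er
  refine (Finset.abs_sum_le_sum_abs _ _).trans ?_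
  calc ∑ i, |(y i : ℝ) * (th hm i - rr m k i)| ≤ ∑ _i : Fin m, T * (2 * ee m k) := by
        apply Finset.sum_le_sum
        intro i _
        rw [abs_mul]
        have h0 := abs_nonneg (y i : ℝ)
        exact mul_le_mul (hy i) (th_spec hm i k) (abs_nonneg _) (h0.trans (hy i))
    _ = m * T * (2 * ee m k) := by
        rw [Finset.sum_const, Finset.card_univ, Fintype.card_fin, nsmul_eq_mul]; ring

theorem er_succ (k : ℕ) (y : Fin m → ℤ) :
    er hm k y = jj m (k + 1) y * ((rho m (k + 1) : ℝ) - rho m k) + er hm (k + 1) y := by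
  unfold er jj
  push_cast
  rw [Finset.sum_mul, ← Finset.sum_add_distrib]
  apply Finset.sum_congr rfl
  intro i _
  have := rr_succ m k i
  linear_combination (y i : ℝ) * this

theorem jj_bound (k : ℕ) (y : Fin m → ℤ) (T : ℝ) (hy : ∀ i, |(y i : ℝ)| ≤ T) :
    |(jj m (k + 1) y : ℝ)| ≤ 3 * m * dd m k * T := by
  unfold jj
  push_cast
  refine (Finset.abs_sum_le_sum_abs _ _).trans ?_
  calc ∑ i, |(y i : ℝ) * (nv m (k + 1) i : ℝ)| ≤ ∑ _i : Fin m, T * (3 * dd m k) := by
        apply Finset.sum_le_sum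
        intro i _
        rw [abs_mul, abs_of_nonneg (by positivity : (0 : ℝ) ≤ nv m (k + 1) i)]
        have h2 : (nv m (k + 1) i : ℝ) ≤ 3 * dd m k := by
          exact_mod_cast (nv_succ_bounds hm k i).2
        exact mul_le_mul (hy i) h2 (by positivity) ((abs_nonneg _).trans (hy i))
    _ = 3 * m * dd m k * T := by
        rw [Finset.sum_const, Finset.card_univ, Fintype.card_fin, nsmul_eq_mul]; ring

theorem jj_lower (k : ℕ) (y : Fin m → ℤ) (hpos : ∀ i, 0 < y i) (i₀ : Fin m) :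
    (dd m k : ℝ) * y i₀ ≤ jj m (k + 1) y := by
  have h1 : (y i₀ * nv m (k + 1) i₀ : ℤ) ≤ jj m (k + 1) y := by
    unfold jj
    apply Finset.single_le_sum (f := fun i => y i * (nv m (k + 1) i : ℤ)) _ (Finset.mem_univ i₀)
    intro i _
    have := (hpos i).le
    positivity
  have h2 : (dd m k : ℤ) ≤ nv m (k + 1) i₀ := by exact_mod_cast (nv_succ_bounds hm k i₀).1
  have h3 : (dd m k : ℤ) * y i₀ ≤ jj m (k + 1) y := by
    have := hpos i₀
    nlinarith
  exact_mod_cast h3

omit hm in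
/-- Integrality: a rational with denominator `D` times an integer not divisible by `D`. -/
theorem not_dvd_bound (ρ : ℚ) (j p : ℤ) (h : ¬ (ρ.den : ℤ) ∣ j) :
    1 / (ρ.den : ℝ) ≤ |j * (ρ : ℝ) - p| := by
  have hden : (0 : ℝ) < ρ.den := by exact_mod_cast ρ.den_pos
  have e : j * (ρ : ℝ) - p = ((j * ρ.num - p * ρ.den : ℤ) : ℝ) / ρ.den := by
    rw [eq_div_iff hden.ne']
    have h2 : (ρ.den : ℝ) * (ρ : ℝ) = ρ.num := by
      have := Rat.den_mul_eq_num ρ
      exact_mod_cast this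
    push_cast
    linear_combination (j : ℝ) * h2
  rw [e, abs_div, abs_of_pos hden]
  apply div_le_div_of_nonneg_right _ hden.le
  have hne : j * ρ.num - p * ρ.den ≠ 0 := by
    intro h0
    apply h
    have h1 : (ρ.den : ℤ) ∣ j * ρ.num := ⟨p, by linarith⟩
    have hc : IsCoprime (ρ.den : ℤ) ρ.num := by
      rw [Int.isCoprime_iff_gcd_eq_one, Int.gcd_comm]
      exact ρ.reduced
    exact hc.dvd_of_dvd_mul_right h1
  exact_mod_cast Int.one_le_abs hne

omit hm in
theorem dvd_int (ρ : ℚ) (j : ℤ) (h : (ρ.den : ℤ) ∣ j) : ∃ z : ℤ, j * (ρ : ℝ) = z := by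
  obtain ⟨c, rfl⟩ := h
  refine ⟨c * ρ.num, ?_⟩
  have h2 : (ρ.den : ℝ) * (ρ : ℝ) = ρ.num := by
    have := Rat.den_mul_eq_num ρ
    exact_mod_cast this
  push_cast
  linear_combination (c : ℝ) * h2

/-- The main estimate at one level. -/
theorem main_est (l : ℕ) (y : Fin m → ℤ) (hpos : ∀ i, 0 < y i) (i₀ : Fin m)
    (hmax : ∀ i, y i ≤ y i₀) (h1 : (aa m l : ℝ) ≤ 48 * m * y i₀)
    (h2 : 48 * m * (y i₀ : ℝ) ≤ aa m (l + 1)) (p : ℤ) :
    ((dd m (l + 1) : ℝ) ≤ 3 * m * dd m l * y i₀ ∧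
      (y i₀ : ℝ) / (16 * aa m (l + 1) * dd m (l + 1)) ≤ |∑ i, th hm i * (y i : ℝ) - p|) ∨
    ((dd m (l + 1) : ℝ) / (100 * m) ≤ 3 * m * dd m l * y i₀ ∧
      1 / (2 * (dd m (l + 1) : ℝ)) ≤ |∑ i, th hm i * (y i : ℝ) - p|) ∨
    1 / (48 * 24 * (m : ℝ) ^ 2 * dd m l * y i₀) ≤ |∑ i, th hm i * (y i : ℝ) - p| := by
  obtain ⟨z, hz⟩ := form_eq hm (l + 1) y
  set T : ℝ := (y i₀ : ℝ) with hT
  have hT1 : 1 ≤ T := by rw [hT]; exact_mod_cast hpos i₀
  have hM : (1 : ℝ) ≤ m := by exact_mod_cast hm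
  have hD : (1 : ℝ) ≤ dd m l := by exact_mod_cast dd_pos m l
  have hD' : (1 : ℝ) ≤ dd m (l + 1) := by exact_mod_cast dd_pos m (l + 1)
  have hA' : (2 : ℝ) ≤ aa m (l + 1) := by exact_mod_cast aa_two m (l + 1)
  have hA : (2 : ℝ) ≤ aa m l := by exact_mod_cast aa_two m l
  have hAD' : (dd m (l + 1) : ℝ) ≤ aa m (l + 1) := aa_ge m (l + 1)
  have hyT : ∀ i, |(y i : ℝ)| ≤ T := by
    intro i
    have h3 := hpos i
    have h4 := hmax i
    rw [abs_of_pos (by exact_mod_cast h3), hT]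
    exact_mod_cast h4
  have hE := er_bound hm (l + 1) y T hyT
  have hjup := jj_bound hm l y T hyT
  have hjlow := jj_lower hm l y hpos i₀
  set E := er hm (l + 1) y with hEdef
  set j := jj m (l + 1) y with hjdef
  have hj0 : (0 : ℝ) < j := by
    have : 0 < (dd m l : ℝ) * T := by positivity
    linarith
  rw [abs_of_pos hj0] at hjup
  have hee : (m : ℝ) * T * (2 * ee m (l + 1)) = 12 * m * T / (aa m (l + 1) * dd m (l + 1)) := by
    unfold ee; ring
  rw [hee] at hE
  have hE4 : |E| ≤ 1 / (4 * dd m (l + 1)) := by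
    refine hE.trans ?_
    rw [div_le_div_iff₀ (by positivity) (by positivity)]
    nlinarith
  by_cases hdv : ((rho m (l + 1)).den : ℤ) ∣ j
  · left
    obtain ⟨c, hc⟩ := dvd_int (rho m (l + 1)) j hdv
    have hjD : (dd m (l + 1) : ℝ) ≤ j := by
      have h3 : (0 : ℤ) < j := by exact_mod_cast hj0
      have h4 := Int.le_of_dvd h3 hdv
      exact_mod_cast h4
    refine ⟨hjD.trans hjup, ?_⟩
    have hS : ∑ i, th hm i * (y i : ℝ) - p = ((c - z - p : ℤ) : ℝ) + E := by
      rw [hz, hc]; push_cast; ring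
    rw [hS]
    by_cases ha : c - z - p = 0
    · rw [ha, Int.cast_zero, zero_add]
      have h3 := er_succ hm (l + 1) y
      have h4 := er_bound hm (l + 2) y T hyT
      have h5 := jj_lower hm (l + 1) y hpos i₀
      have h6 := (rho_spec m (l + 1)).2.2.1
      have h7 := prod_succ hm (l + 1)
      have hA2 : (2 : ℝ) ≤ aa m (l + 2) := by exact_mod_cast aa_two m (l + 2)
      have hD2 : (1 : ℝ) ≤ dd m (l + 2) := by exact_mod_cast dd_pos m (l + 2)
      have hee2 : (m : ℝ) * T * (2 * ee m (l + 2)) = 12 * m * T / (aa m (l + 2) * dd m (l + 2)) := by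
        unfold ee; ring
      rw [hee2] at h4
      set X := T / (aa m (l + 1) * dd m (l + 1)) with hX
      have hX0 : 0 < X := by positivity
      have h8 : |er hm (l + 2) y| ≤ X / 16 := by
        refine h4.trans ?_
        rw [hX, div_div, div_le_div_iff₀ (by positivity) (by positivity)]
        have : 12 * m * T * (aa m (l + 1) * dd m (l + 1) * 16)
            = T * (192 * m * ((aa m (l + 1) : ℝ) * dd m (l + 1))) := by ring
        rw [this]
        apply mul_le_mul_of_nonneg_left _ (by linarith)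
        have h9 : 0 < (m : ℝ) * ((aa m (l + 1) : ℝ) * dd m (l + 1)) := by positivity
        have e2 : l + 1 + 1 = l + 2 := rfl
        rw [e2] at h7
        linarith
      have h10 : X / 8 ≤ |(jj m (l + 2) y : ℝ) * ((rho m (l + 2) : ℝ) - rho m (l + 1))| := by
        rw [abs_mul]
        have h11 : (dd m (l + 1) : ℝ) * T ≤ |(jj m (l + 2) y : ℝ)| := h5.trans (le_abs_self _)
        calc X / 8 = (dd m (l + 1) * T) * (1 / (8 * aa m (l + 1) * (dd m (l + 1) : ℝ) ^ 2)) := by
              rw [hX]; field_simp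
          _ ≤ _ := mul_le_mul h11 h6 (by positivity) (abs_nonneg _)
      have h12 : T / (16 * aa m (l + 1) * dd m (l + 1)) = X / 16 := by rw [hX]; field_simp
      rw [h12, hEdef, h3]
      have h13 := abs_sub_abs_le_abs_add ((jj m (l + 2) y : ℝ) * ((rho m (l + 2) : ℝ) - rho m (l + 1)))
        (er hm (l + 2) y)
      have e3 : l + 1 + 1 = l + 2 := rfl
      rw [e3]
      linarith
    · have h3 : (1 : ℝ) ≤ |((c - z - p : ℤ) : ℝ)| := by exact_mod_cast Int.one_le_abs ha
      have h4 := abs_sub_abs_le_abs_add ((c - z - p : ℤ) : ℝ) E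
      have h5 : 1 / (4 * (dd m (l + 1) : ℝ)) ≤ 1 / 4 := by
        apply one_div_le_one_div_of_le (by norm_num); linarith
      have h6 : T / (16 * aa m (l + 1) * dd m (l + 1)) ≤ 1 / 16 := by
        rw [div_le_div_iff₀ (by positivity) (by norm_num)]
        nlinarith [mul_le_mul h2 hD' (by norm_num) (by linarith)]
      linarith
  · have hnd := not_dvd_bound (rho m (l + 1)) j (z + p) hdv
    have hS : ∑ i, th hm i * (y i : ℝ) - p = (j * (rho m (l + 1) : ℝ) - ((z + p : ℤ) : ℝ)) + E := by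
      rw [hz]; push_cast; ring
    have hSlow : |j * (rho m (l + 1) : ℝ) - ((z + p : ℤ) : ℝ)| - |E| ≤
        |∑ i, th hm i * (y i : ℝ) - p| := by
      rw [hS]; exact abs_sub_abs_le_abs_add _ _
    by_cases hbig : (dd m (l + 1) : ℝ) / (100 * m) ≤ j
    · right; left
      refine ⟨hbig.trans hjup, ?_⟩
      have e1 : 1 / (2 * (dd m (l + 1) : ℝ)) = 1 / (dd m (l + 1)) / 2 := by field_simp
      have e2 : 1 / (4 * (dd m (l + 1) : ℝ)) = 1 / (dd m (l + 1)) / 4 := by field_simp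
      have h3 : (0 : ℝ) < 1 / (dd m (l + 1)) := by positivity
      rw [e1]
      rw [e2] at hE4
      have h4 : 1 / (dd m (l + 1) : ℝ) ≤ |j * (rho m (l + 1) : ℝ) - ((z + p : ℤ) : ℝ)| := hnd
      linarith
    · right; right
      push Not at hbig
      have hjZ : (0 : ℤ) < j := by exact_mod_cast hj0
      obtain ⟨jn, hjn⟩ : ∃ jn : ℕ, (jn : ℤ) = j := ⟨j.toNat, Int.toNat_of_nonneg hjZ.le⟩
      have hjn0 : 0 < jn := by omega
      have hjr : (jn : ℝ) = j := by exact_mod_cast congrArg (fun t : ℤ => (t : ℝ)) hjn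
      have h3 := (rho_spec m l).2.2.2 jn hjn0 (z + p)
      rw [hjr] at h3
      have h4 : 1 / (192 * m * (j : ℝ)) ≤ min (1 / (8 * (j : ℝ))) (1 / (4 * aa m l * dd m l)) := by
        apply le_min
        · apply one_div_le_one_div_of_le (by positivity)
          nlinarith
        · apply one_div_le_one_div_of_le (by positivity)
          calc (4 : ℝ) * aa m l * dd m l ≤ 4 * (48 * m * T) * dd m l := by gcongr
            _ = 192 * m * (dd m l * T) := by ring
            _ ≤ 192 * m * j := by gcongr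
      have hjsq : (j : ℝ) * j * (10000 * m ^ 2) ≤ (dd m (l + 1) : ℝ) ^ 2 := by
        have h5 : (j : ℝ) * (100 * m) ≤ dd m (l + 1) := by
          rw [lt_div_iff₀ (by positivity)] at hbig
          exact hbig.le
        calc (j : ℝ) * j * (10000 * m ^ 2) = (j * (100 * m)) ^ 2 := by ring
          _ ≤ _ := by gcongr
      set W : ℝ := 1 / (m * (j : ℝ)) with hW
      have hW0 : 0 < W := by positivity
      have h5 : (j : ℝ) / (dd m (l + 1) : ℝ) ^ 2 ≤ W / 10000 := by
        rw [hW, div_div, div_le_div_iff₀ (by positivity) (by positivity)]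
        have h9 : (m : ℝ) ≤ m ^ 2 := by nlinarith
        calc (j : ℝ) * (m * j * 10000) = j * j * (10000 * m) := by ring
          _ ≤ j * j * (10000 * m ^ 2) := by
              apply mul_le_mul_of_nonneg_left _ (by positivity)
              linarith
          _ ≤ 1 * (dd m (l + 1) : ℝ) ^ 2 := by rw [one_mul]; exact hjsq
      have h6 : |E| ≤ 12 * (W / 10000) := by
        refine hE.trans ?_
        rw [hW, div_div, ← mul_div_assoc, div_le_div_iff₀ (by positivity) (by positivity)]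
        have hTj : T ≤ j := le_trans (le_mul_of_one_le_left (by linarith) hD) hjlow
        calc 12 * m * T * (m * j * 10000) ≤ 12 * m * j * (m * j * 10000) := by gcongr
          _ = 12 * (j * j * (10000 * m ^ 2)) := by ring
          _ ≤ 12 * (dd m (l + 1) : ℝ) ^ 2 := by gcongr
          _ ≤ 12 * 1 * (aa m (l + 1) * dd m (l + 1)) := by
              have h9 : (dd m (l + 1) : ℝ) * dd m (l + 1) ≤ aa m (l + 1) * dd m (l + 1) :=
                mul_le_mul_of_nonneg_right hAD' (by linarith)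
              rw [pow_two]
              linarith
      have h7 : 1 / (192 * m * (j : ℝ)) = W / 192 := by rw [hW]; field_simp
      have h8 : 1 / (48 * 24 * (m : ℝ) ^ 2 * dd m l * T) ≤ W / 384 := by
        rw [hW, div_div]
        apply one_div_le_one_div_of_le (by positivity)
        calc m * (j : ℝ) * 384 ≤ m * (3 * m * dd m l * T) * 384 := by gcongr
          _ = 48 * 24 * (m : ℝ) ^ 2 * dd m l * T := by ring
      rw [h7] at h4
      linarith

end est

/-! ### Linear independence and asymptotics -/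

theorem jj_succ (m k : ℕ) (y : Fin m → ℤ) :
    jj m (k + 1) y = jj m k y + dd m k * ∑ i, y i * gg m k i := by
  unfold jj
  rw [Finset.mul_sum, ← Finset.sum_add_distrib]
  apply Finset.sum_congr rfl
  intro i _
  have : nv m (k + 1) i = nv m k i + dd m k * gg m k i := rfl
  rw [this]
  push_cast
  ring

theorem sum_gg (m k : ℕ) (y : Fin m → ℤ) (i : Fin m) (hi : k % m = i) :
    ∑ j, y j * (gg m k j : ℤ) = ∑ j, y j + y i := by
  have h : ∀ j : Fin m, y j * (gg m k j : ℤ) = y j + if j = i then y j else 0 := by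
    intro j
    unfold gg
    by_cases hj : j = i
    · subst hj
      rw [if_pos hi, if_pos rfl]; push_cast; ring
    · have : ¬ (k % m = j) := by
        rw [hi]
        intro h
        exact hj (Fin.ext h.symm)
      rw [if_neg this, if_neg hj]; push_cast; ring
  simp_rw [h]
  rw [Finset.sum_add_distrib]
  simp

section

variable {m : ℕ} (hm : 0 < m)

include hm

theorem indep (y : Fin m → ℤ) (z : ℤ) (h : ∑ i, th hm i * (y i : ℝ) = z) : y = 0 := by
  obtain ⟨Y, hY⟩ : ∃ Y : ℕ, ∀ i, |(y i : ℝ)| ≤ Y := by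
    refine ⟨∑ i, (y i).natAbs, fun i => ?_⟩
    have h1 : (y i).natAbs ≤ ∑ i, (y i).natAbs :=
      Finset.single_le_sum (f := fun i => (y i).natAbs) (fun i _ => Nat.zero_le _) (Finset.mem_univ i)
    have h2 : |(y i : ℝ)| = ((y i).natAbs : ℝ) := by
      rw [Nat.cast_natAbs]; push_cast; rfl
    rw [h2]
    exact_mod_cast h1
  have hM : (1 : ℝ) ≤ m := by exact_mod_cast hm
  have hY0 : (0 : ℝ) ≤ Y := by positivity
  -- the inner products vanish eventually
  have key : ∀ l, 12 * m * Y ≤ l → jj m (l + 1) y = 0 := by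
    intro l hl
    have hl' : 12 * (m : ℝ) * Y ≤ l := by exact_mod_cast hl
    obtain ⟨z', hz'⟩ := form_eq hm (l + 1) y
    have hE := er_bound hm (l + 1) y Y hY
    have hj := jj_bound hm l y Y hY
    have hD' : (1 : ℝ) ≤ dd m (l + 1) := by exact_mod_cast dd_pos m (l + 1)
    have hD : (1 : ℝ) ≤ dd m l := by exact_mod_cast dd_pos m l
    have hDl : ((l : ℝ) + 1) + 1 ≤ dd m (l + 1) := by exact_mod_cast dd_ge hm (l + 1)
    have hDl0 : (l : ℝ) + 1 ≤ dd m l := by exact_mod_cast dd_ge hm l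
    have hA' : (dd m (l + 1) : ℝ) ≤ aa m (l + 1) := aa_ge m (l + 1)
    have hA : (dd m l : ℝ) ≤ aa m l := aa_ge m l
    have hee : (m : ℝ) * Y * (2 * ee m (l + 1)) = 12 * m * Y / (aa m (l + 1) * dd m (l + 1)) := by
      unfold ee; ring
    rw [hee] at hE
    have hE2 : |er hm (l + 1) y| < 1 / (dd m (l + 1)) := by
      refine hE.trans_lt ?_
      have hA0 : (0 : ℝ) < aa m (l + 1) := by linarith
      rw [div_lt_div_iff₀ (by positivity) (by positivity)]
      have : 12 * (m : ℝ) * Y < aa m (l + 1) := by linarith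
      rw [one_mul]
      exact mul_lt_mul_of_pos_right this (by linarith)
    have hdv : ((rho m (l + 1)).den : ℤ) ∣ jj m (l + 1) y := by
      by_contra hnd
      have h3 := not_dvd_bound (rho m (l + 1)) (jj m (l + 1) y) (z + z') hnd
      have h4 : jj m (l + 1) y * (rho m (l + 1) : ℝ) - ((z + z' : ℤ) : ℝ) = - er hm (l + 1) y := by
        rw [h] at hz'
        push_cast
        linarith
      rw [h4, abs_neg] at h3
      exact absurd hE2 (not_lt.2 h3)
    have h5 : |(jj m (l + 1) y : ℝ)| < dd m (l + 1) := by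
      refine hj.trans_lt ?_
      have h6 : 200 * (m : ℝ) * ((aa m l : ℝ) * dd m l) ≤ dd m (l + 1) := by
        exact_mod_cast dd_succ_big hm l
      refine lt_of_lt_of_le ?_ h6
      have h7 : (Y : ℝ) ≤ aa m l := by nlinarith
      have h8 : (m : ℝ) * dd m l * Y ≤ m * dd m l * aa m l :=
        mul_le_mul_of_nonneg_left h7 (by positivity)
      have h9 : 0 < (m : ℝ) * dd m l * aa m l := by
        have : (0 : ℝ) < aa m l := by linarith
        positivity
      linarith
    have h6 : |jj m (l + 1) y| < ((rho m (l + 1)).den : ℤ) := by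
      have : ((|jj m (l + 1) y| : ℤ) : ℝ) < ((dd m (l + 1) : ℕ) : ℝ) := by
        rw [Int.cast_abs]; exact h5
      exact_mod_cast this
    exact Int.eq_zero_of_abs_lt_dvd hdv h6
  have key2 : ∀ l, 12 * m * Y ≤ l → ∑ i, y i * (gg m (l + 1) i : ℤ) = 0 := by
    intro l hl
    have h1 := key l hl
    have h2 := key (l + 1) (by omega)
    rw [jj_succ m (l + 1) y, h1, zero_add] at h2
    have h3 : (dd m (l + 1) : ℤ) ≠ 0 := by
      have := dd_pos m (l + 1); omega
    exact (mul_eq_zero.1 h2).resolve_left h3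
  set s := ∑ j, y j with hs
  have key3 : ∀ i : Fin m, s + y i = 0 := by
    intro i
    obtain ⟨l, hl⟩ : ∃ l, l + 1 = m * (12 * m * Y + 1) + i := by
      have : 1 ≤ m * (12 * m * Y + 1) := Nat.one_le_iff_ne_zero.2 (by positivity)
      exact ⟨m * (12 * m * Y + 1) + i - 1, by omega⟩
    have h1 : 12 * m * Y ≤ l := by
      have h2 : 12 * m * Y + 1 ≤ m * (12 * m * Y + 1) := Nat.le_mul_of_pos_left _ hm
      omega
    have h2 := key2 l h1
    have h3 : (l + 1) % m = i := by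
      rw [hl, Nat.mul_add_mod]
      exact Nat.mod_eq_of_lt i.2
    rw [sum_gg m (l + 1) y i h3] at h2
    exact h2
  have h4 : (m : ℤ) * s + s = 0 := by
    have h5 : ∑ i : Fin m, (s + y i) = 0 := Finset.sum_eq_zero (fun i _ => key3 i)
    rw [Finset.sum_add_distrib, Finset.sum_const, Finset.card_univ, Fintype.card_fin,
      nsmul_eq_mul] at h5
    exact h5
  have h6 : s = 0 := by
    have h7 : ((m : ℤ) + 1) * s = 0 := by linarith
    rcases mul_eq_zero.1 h7 with h8 | h8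
    · omega
    · exact h8
  funext i
  have := key3 i
  rw [h6] at this
  simpa using this

theorem lin_indep : LinearIndependent ℤ (Fin.cons (1 : ℝ) (th hm) : Fin (m + 1) → ℝ) := by
  rw [Fintype.linearIndependent_iff]
  intro g hg
  rw [Fin.sum_univ_succ] at hg
  simp only [Fin.cons_zero, Fin.cons_succ, zsmul_eq_mul, mul_one] at hg
  have h1 : ∑ i, th hm i * ((g (Fin.succ i) : ℤ) : ℝ) = ((-g 0 : ℤ) : ℝ) := by
    push_cast
    have : ∑ i, th hm i * ((g (Fin.succ i) : ℤ) : ℝ) = ∑ i : Fin m, (g i.succ : ℝ) * th hm i := by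
      apply Finset.sum_congr rfl; intro i _; ring
    rw [this]; linarith
  have h2 := indep hm (fun i => g (Fin.succ i)) (-g 0) h1
  intro i
  refine Fin.cases ?_ (fun i => ?_) i
  · have h3 : ∀ i : Fin m, g i.succ = 0 := fun i => congrFun h2 i
    simp only [h3] at h1
    simp at h1
    exact h1
  · exact congrFun h2 i

theorem dd_tendsto : Tendsto (fun l => (dd m l : ℝ)) atTop atTop := by
  apply tendsto_atTop_mono (f := fun l : ℕ => (l : ℝ)) _ tendsto_natCast_atTop_atTop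
  intro l
  have := dd_ge hm l
  exact_mod_cast (by omega : l ≤ dd m l)

theorem asym (η a b c : ℝ) (hη : 0 < η) (ha : 0 < a) (hab : b < a) :
    ∃ K : ℕ, ∀ l ≥ K, ∀ T : ℝ, 0 < T → η * (dd m (l + 1) : ℝ) ≤ 3 * m * dd m l * T →
      c * (dd m (l + 1) : ℝ) ^ b ≤ T ^ a := by
  have h1 : ∀ᶠ l : ℕ in atTop, c / η ^ a ≤ (dd m (l + 1) : ℝ) ^ ((a - b) / 2) := by
    have h2 : Tendsto (fun l : ℕ => (dd m (l + 1) : ℝ) ^ ((a - b) / 2)) atTop atTop :=
      (tendsto_rpow_atTop (by linarith)).comp ((dd_tendsto hm).comp (tendsto_add_atTop_nat 1))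
    exact h2.eventually_ge_atTop _
  have h2 : ∀ᶠ l : ℕ in atTop, 2 * a / (a - b) ≤ (l : ℝ) :=
    tendsto_natCast_atTop_atTop.eventually_ge_atTop _
  obtain ⟨K, hK⟩ := (h1.and h2).exists_forall_of_atTop
  refine ⟨K, fun l hl T hT hle => ?_⟩
  obtain ⟨h3, h4⟩ := hK l hl
  have hM : (1 : ℝ) ≤ m := by exact_mod_cast hm
  have hD : (1 : ℝ) ≤ dd m l := by exact_mod_cast dd_pos m l
  have hD' : (1 : ℝ) ≤ dd m (l + 1) := by exact_mod_cast dd_pos m (l + 1)
  set P : ℝ := 3 * m * dd m l with hP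
  have hP0 : 0 < P := by positivity
  have hpow : P ^ (l + 1) ≤ dd m (l + 1) := by
    rw [hP]; exact_mod_cast dd_succ_pow hm l
  have hl1 : (0 : ℝ) < (l : ℝ) + 1 := by positivity
  have hP1 : P ≤ (dd m (l + 1) : ℝ) ^ (1 / ((l : ℝ) + 1)) := by
    calc P = (P ^ (l + 1)) ^ (1 / ((l : ℝ) + 1)) := by
          rw [← Real.rpow_natCast, ← Real.rpow_mul hP0.le]
          push_cast
          rw [mul_one_div_cancel hl1.ne', Real.rpow_one]
      _ ≤ _ := Real.rpow_le_rpow (by positivity) hpow (by positivity)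
  have hab' : 0 < a - b := by linarith
  have hT1 : η * (dd m (l + 1) : ℝ) ^ (1 - 1 / ((l : ℝ) + 1)) ≤ T := by
    rw [Real.rpow_sub (by linarith), Real.rpow_one, ← mul_div_assoc, div_le_iff₀ (by positivity)]
    refine hle.trans ?_
    rw [mul_comm]
    exact mul_le_mul_of_nonneg_left hP1 hT.le
  have hexp : (a + b) / 2 ≤ (1 - 1 / ((l : ℝ) + 1)) * a := by
    have h5 : a / ((l : ℝ) + 1) ≤ (a - b) / 2 := by
      rw [div_le_iff₀ hl1]
      rw [div_le_iff₀ hab'] at h4
      nlinarith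
    have h6 : (1 - 1 / ((l : ℝ) + 1)) * a = a - a / ((l : ℝ) + 1) := by ring
    rw [h6]; linarith
  calc c * (dd m (l + 1) : ℝ) ^ b
      = c / η ^ a * (η ^ a * (dd m (l + 1) : ℝ) ^ b) := by
        have : 0 < η ^ a := Real.rpow_pos_of_pos hη a
        field_simp
    _ ≤ (dd m (l + 1) : ℝ) ^ ((a - b) / 2) * (η ^ a * (dd m (l + 1) : ℝ) ^ b) := by
        apply mul_le_mul_of_nonneg_right h3
        have : 0 < η ^ a := Real.rpow_pos_of_pos hη a
        positivity
    _ = η ^ a * (dd m (l + 1) : ℝ) ^ ((a + b) / 2) := by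
        have : (dd m (l + 1) : ℝ) ^ ((a + b) / 2)
            = (dd m (l + 1) : ℝ) ^ ((a - b) / 2) * (dd m (l + 1) : ℝ) ^ b := by
          rw [← Real.rpow_add (by linarith)]; congr 1; ring
        rw [this]; ring
    _ ≤ η ^ a * (dd m (l + 1) : ℝ) ^ ((1 - 1 / ((l : ℝ) + 1)) * a) := by
        apply mul_le_mul_of_nonneg_left _ (Real.rpow_nonneg hη.le a)
        exact Real.rpow_le_rpow_of_exponent_le hD' hexp
    _ = (η * (dd m (l + 1) : ℝ) ^ (1 - 1 / ((l : ℝ) + 1))) ^ a := by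
        rw [Real.mul_rpow hη.le (by positivity), ← Real.rpow_mul (by positivity)]
    _ ≤ T ^ a := Real.rpow_le_rpow (by positivity) hT1 ha.le

theorem asym3 (e C : ℝ) (he : 1 < e) :
    ∃ K : ℕ, ∀ l ≥ K, C * (dd m l : ℝ) ≤ (dd m l : ℝ) ^ e := by
  have h2 : Tendsto (fun l : ℕ => (dd m l : ℝ) ^ (e - 1)) atTop atTop :=
      (tendsto_rpow_atTop (by linarith)).comp (dd_tendsto hm)
  obtain ⟨K, hK⟩ := (h2.eventually_ge_atTop C).exists_forall_of_atTop
  refine ⟨K, fun l hl => ?_⟩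
  have hD : (0 : ℝ) < dd m l := by exact_mod_cast dd_pos m l
  have h3 := hK l hl
  rw [Real.rpow_sub hD, Real.rpow_one, le_div_iff₀ hD] at h3
  exact h3

theorem eventually_lower (ω : ℝ) (hω : Real.goldenRatio < ω) :
    ∃ K : ℕ, ∀ l ≥ K, ∀ y : Fin m → ℤ, (∀ i, 0 < y i) → ∀ i₀ : Fin m, (∀ i, y i ≤ y i₀) →
      (aa m l : ℝ) ≤ 48 * m * y i₀ → 48 * m * (y i₀ : ℝ) ≤ aa m (l + 1) → ∀ p : ℤ,
        (y i₀ : ℝ) ^ (-ω) ≤ |∑ i, th hm i * (y i : ℝ) - p| := by
  have hφ1 : 1 < Real.goldenRatio := Real.one_lt_goldenRatio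
  have hM : (1 : ℝ) ≤ m := by exact_mod_cast hm
  obtain ⟨K1, hK1⟩ := asym hm 1 (1 + ω) (1 + Real.goldenRatio) 48 one_pos (by linarith) (by linarith)
  obtain ⟨K2, hK2⟩ := asym hm (1 / (100 * m)) ω 1 2 (by positivity) (by linarith) (by linarith)
  have he : 1 < Real.goldenRatio * (ω - 1) := by
    have := Real.goldenRatio_sq
    nlinarith
  obtain ⟨K3, hK3⟩ := asym3 hm (Real.goldenRatio * (ω - 1))
    (48 * 24 * (m : ℝ) ^ 2 * (48 * m) ^ (ω - 1)) he
  refine ⟨max K1 (max K2 K3), fun l hl y hpos i₀ hmax h1 h2 p => ?_⟩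
  have hl1 : K1 ≤ l := (le_max_left _ _).trans hl
  have hl2 : K2 ≤ l := (le_max_left _ _).trans ((le_max_right _ _).trans hl)
  have hl3 : K3 ≤ l := (le_max_right _ _).trans ((le_max_right _ _).trans hl)
  have hT1 : (1 : ℝ) ≤ y i₀ := by exact_mod_cast hpos i₀
  have hT0 : (0 : ℝ) < y i₀ := by linarith
  have hD : (1 : ℝ) ≤ dd m l := by exact_mod_cast dd_pos m l
  have hD' : (1 : ℝ) ≤ dd m (l + 1) := by exact_mod_cast dd_pos m (l + 1)
  have hA' : (2 : ℝ) ≤ aa m (l + 1) := by exact_mod_cast aa_two m (l + 1)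
  rcases main_est hm l y hpos i₀ hmax h1 h2 p with ⟨h3, h4⟩ | ⟨h3, h4⟩ | h4
  · refine le_trans ?_ h4
    have h5 := hK1 l hl1 (y i₀) hT0 (by rw [one_mul]; exact h3)
    have h6 : (aa m (l + 1) : ℝ) ≤ 3 * (dd m (l + 1) : ℝ) ^ Real.goldenRatio := sz_up (dd_pos m (l + 1))
    have h7 : (dd m (l + 1) : ℝ) ^ (1 + Real.goldenRatio)
        = dd m (l + 1) * (dd m (l + 1) : ℝ) ^ Real.goldenRatio := by
      rw [Real.rpow_add (by linarith), Real.rpow_one]
    have h8 : 16 * (aa m (l + 1) : ℝ) * dd m (l + 1) ≤ (y i₀ : ℝ) ^ (1 + ω) := by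
      refine le_trans ?_ h5
      rw [h7]
      have := mul_le_mul_of_nonneg_right h6 (by linarith : (0 : ℝ) ≤ 16 * dd m (l + 1))
      linarith
    have h9 : (y i₀ : ℝ) ^ (-ω) = y i₀ / (y i₀ : ℝ) ^ (1 + ω) := by
      rw [Real.rpow_add hT0, Real.rpow_one, Real.rpow_neg hT0.le]
      have : 0 < (y i₀ : ℝ) ^ ω := by positivity
      field_simp
    rw [h9]
    exact div_le_div_of_nonneg_left hT0.le (by positivity) h8
  · refine le_trans ?_ h4
    have h5 := hK2 l hl2 (y i₀) hT0 (by rw [one_div_mul_eq_div]; exact h3)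
    rw [Real.rpow_one] at h5
    rw [Real.rpow_neg hT0.le, ← one_div]
    exact one_div_le_one_div_of_le (by positivity) h5
  · refine le_trans ?_ h4
    have h5 := hK3 l hl3
    have h6 : (dd m l : ℝ) ^ Real.goldenRatio / (48 * m) ≤ y i₀ := by
      rw [div_le_iff₀ (by positivity)]
      have := sz_low (dd m l)
      have h7 : (dd m l : ℝ) ^ Real.goldenRatio ≤ aa m l := this
      linarith
    have h7 : (dd m l : ℝ) ^ (Real.goldenRatio * (ω - 1)) / (48 * m) ^ (ω - 1)
        ≤ (y i₀ : ℝ) ^ (ω - 1) := by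
      rw [Real.rpow_mul (by linarith), ← Real.div_rpow (by positivity) (by positivity)]
      exact Real.rpow_le_rpow (by positivity) h6 (by linarith)
    have h8 : 48 * 24 * (m : ℝ) ^ 2 * dd m l ≤ (y i₀ : ℝ) ^ (ω - 1) := by
      refine le_trans ?_ h7
      rw [le_div_iff₀ (by positivity)]
      calc 48 * 24 * (m : ℝ) ^ 2 * dd m l * (48 * m) ^ (ω - 1)
          = 48 * 24 * (m : ℝ) ^ 2 * (48 * m) ^ (ω - 1) * dd m l := by ring
        _ ≤ _ := h5
    rw [Real.rpow_neg hT0.le, ← one_div]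
    apply one_div_le_one_div_of_le (by positivity)
    have h9 : (y i₀ : ℝ) ^ ω = (y i₀ : ℝ) ^ (ω - 1) * y i₀ := by
      rw [Real.rpow_sub hT0, Real.rpow_one]; field_simp
    rw [h9]
    exact mul_le_mul_of_nonneg_right h8 hT0.le

end

/-! ### The exponent -/

/-- For `t ≥ 1` the infimum defining `psiPlus` is attained. -/
theorem psiPlus_mem {m : ℕ} (Θ : Fin m → ℝ) (t : ℝ) (ht : 1 ≤ t) :
    ∃ x : Fin m → ℕ, (∀ i, 0 < x i ∧ (x i : ℝ) ≤ t) ∧ psiPlus Θ t = distInt (∑ i, Θ i * x i) := by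
  have hfin : {z : ℝ | ∃ x : Fin m → ℕ, (∀ i, 0 < x i ∧ (x i : ℝ) ≤ t) ∧
      z = distInt (∑ i, Θ i * x i)}.Finite := by
    have h1 : {x : Fin m → ℕ | ∀ i, 0 < x i ∧ (x i : ℝ) ≤ t}.Finite := by
      apply Set.Finite.subset (Fintype.piFinset (fun _ : Fin m => Finset.range (⌊t⌋₊ + 1))).finite_toSet
      intro x hx
      simp only [Finset.mem_coe, Fintype.mem_piFinset, Finset.mem_range]
      intro i
      have := Nat.le_floor (hx i).2
      omega
    refine (h1.image (fun x => distInt (∑ i, Θ i * x i))).subset ?_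
    rintro z ⟨x, hx, rfl⟩
    exact ⟨x, hx, rfl⟩
  have hne : {z : ℝ | ∃ x : Fin m → ℕ, (∀ i, 0 < x i ∧ (x i : ℝ) ≤ t) ∧
      z = distInt (∑ i, Θ i * x i)}.Nonempty :=
    ⟨_, fun _ => 1, fun _ => ⟨one_pos, by simpa using ht⟩, rfl⟩
  exact hne.csInf_mem hfin

section

variable {m : ℕ} (hm : 0 < m)

include hm

theorem distInt_pos (x : Fin m → ℕ) (hx : ∀ i, 0 < x i) : 0 < distInt (∑ i, th hm i * x i) := by
  unfold distInt
  rw [abs_pos, sub_ne_zero]
  intro h
  have h1 := indep hm (fun i => (x i : ℤ)) (round (∑ i, th hm i * (x i : ℝ))) (by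
    push_cast
    exact h)
  have h2 := congrFun h1 ⟨0, hm⟩
  have h3 := hx ⟨0, hm⟩
  simp at h2
  omega

theorem lower_all (ω : ℝ) (hω : Real.goldenRatio < ω) :
    ∃ c : ℝ, 0 < c ∧ ∀ x : Fin m → ℕ, (∀ i, 0 < x i) → ∀ t : ℝ, (∀ i, (x i : ℝ) ≤ t) →
      c * t ^ (-ω) ≤ distInt (∑ i, th hm i * x i) := by
  have hM : (1 : ℝ) ≤ m := by exact_mod_cast hm
  have hω0 : 0 < ω := by have := Real.one_lt_goldenRatio; linarith
  obtain ⟨K, hK⟩ := eventually_lower hm ω hω
  obtain ⟨c0, hc0, hc0'⟩ : ∃ c0 : ℝ, 0 < c0 ∧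
      ∀ x ∈ Fintype.piFinset (fun _ : Fin m => Finset.Icc 1 (aa m K)),
        c0 ≤ distInt (∑ i, th hm i * x i) := by
    by_cases hne : (Fintype.piFinset (fun _ : Fin m => Finset.Icc 1 (aa m K))).Nonempty
    · obtain ⟨x0, hx0, hmin⟩ := Finset.exists_min_image _
        (fun x : Fin m → ℕ => distInt (∑ i, th hm i * x i)) hne
      refine ⟨_, ?_, hmin⟩
      apply distInt_pos
      intro i
      have := (Fintype.mem_piFinset.1 hx0) i
      rw [Finset.mem_Icc] at this
      omega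
    · rw [Finset.not_nonempty_iff_eq_empty] at hne
      exact ⟨1, one_pos, fun x hx => by rw [hne] at hx; simp at hx⟩
  refine ⟨min 1 c0, by positivity, fun x hx t ht => ?_⟩
  have : Nonempty (Fin m) := ⟨⟨0, hm⟩⟩
  obtain ⟨i₀, -, hi₀⟩ := Finset.exists_max_image (Finset.univ : Finset (Fin m)) x
    Finset.univ_nonempty
  have hmax : ∀ i, x i ≤ x i₀ := fun i => hi₀ i (Finset.mem_univ i)
  have hT1 : (1 : ℝ) ≤ x i₀ := by exact_mod_cast hx i₀
  have htT : (x i₀ : ℝ) ≤ t := ht i₀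
  have hpow : t ^ (-ω) ≤ (x i₀ : ℝ) ^ (-ω) :=
    Real.rpow_le_rpow_of_nonpos (by linarith) htT (by linarith)
  have ht0 : 0 ≤ t ^ (-ω) := Real.rpow_nonneg (by linarith) _
  by_cases hsmall : 48 * m * (x i₀ : ℝ) < aa m K
  · have h1 : c0 ≤ distInt (∑ i, th hm i * x i) := by
      apply hc0'
      rw [Fintype.mem_piFinset]
      intro i
      rw [Finset.mem_Icc]
      refine ⟨hx i, ?_⟩
      have h2 : (x i₀ : ℝ) ≤ aa m K := by nlinarith
      have h3 : x i₀ ≤ aa m K := by exact_mod_cast h2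
      exact (hmax i).trans h3
    have h2 : (x i₀ : ℝ) ^ (-ω) ≤ 1 := Real.rpow_le_one_of_one_le_of_nonpos hT1 (by linarith)
    calc min 1 c0 * t ^ (-ω) ≤ c0 * 1 := by
          apply mul_le_mul (min_le_right _ _) (hpow.trans h2) ht0 hc0.le
      _ ≤ _ := by rw [mul_one]; exact h1
  · push Not at hsmall
    have hex : ∃ n, 48 * m * (x i₀ : ℝ) < aa m (K + n) := by
      have h1 : Tendsto (fun n : ℕ => (dd m (K + n) : ℝ)) atTop atTop := by
        have := (dd_tendsto hm).comp (tendsto_add_atTop_nat K)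
        refine this.congr ?_
        intro n
        simp [add_comm]
      obtain ⟨n, hn⟩ := (h1.eventually_gt_atTop (48 * m * (x i₀ : ℝ))).exists
      exact ⟨n, hn.trans_le (aa_ge m (K + n))⟩
    classical
    set n := Nat.find hex with hn
    have hn1 : 48 * m * (x i₀ : ℝ) < aa m (K + n) := Nat.find_spec hex
    have hn0 : n ≠ 0 := by
      intro h0
      rw [h0, add_zero] at hn1
      linarith
    obtain ⟨n', hn'⟩ := Nat.exists_eq_succ_of_ne_zero hn0
    have hn2 : ¬ (48 * m * (x i₀ : ℝ) < aa m (K + n')) :=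
      Nat.find_min hex (by rw [← hn, hn']; exact Nat.lt_succ_self n')
    push Not at hn2
    rw [hn'] at hn1
    have h3 := hK (K + n') (by omega) (fun i => (x i : ℤ)) (fun i => by exact_mod_cast hx i) i₀
      (fun i => by exact_mod_cast hmax i) (by push_cast; exact hn2)
      (by push_cast; exact hn1.le) (round (∑ i, th hm i * (x i : ℝ)))
    push_cast at h3
    calc min 1 c0 * t ^ (-ω) ≤ 1 * (x i₀ : ℝ) ^ (-ω) := by
          apply mul_le_mul (min_le_left _ _) hpow ht0 (by norm_num)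
      _ ≤ _ := by rw [one_mul]; exact h3

theorem omega_le : omegaPlus (th hm) ≤ ((Real.goldenRatio : ℝ) : EReal) := by
  unfold omegaPlus
  apply sSup_le
  rintro _ ⟨γ, hγ, rfl⟩
  rw [Set.mem_ofPred_eq] at hγ
  simp only
  rw [EReal.coe_le_coe_iff]
  by_contra hcon
  push Not at hcon
  obtain ⟨ω, hω1, hω2⟩ := exists_between hcon
  obtain ⟨c, hc, hlow⟩ := lower_all hm ω hω1
  have h1 : ∀ t : ℝ, 1 ≤ t → c * t ^ (γ - ω) ≤ t ^ γ * psiPlus (th hm) t := by
    intro t ht
    obtain ⟨x, hx, hxe⟩ := psiPlus_mem (th hm) t ht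
    rw [hxe]
    have h2 := hlow x (fun i => (hx i).1) t (fun i => (hx i).2)
    have h3 : 0 ≤ t ^ γ := Real.rpow_nonneg (by linarith) _
    calc c * t ^ (γ - ω) = t ^ γ * (c * t ^ (-ω)) := by
          rw [sub_eq_add_neg, Real.rpow_add (by linarith)]; ring
      _ ≤ _ := mul_le_mul_of_nonneg_left h2 h3
  have h2 : Tendsto (fun t : ℝ => t ^ γ * psiPlus (th hm) t) atTop atTop := by
    have h3 : Tendsto (fun t : ℝ => c * t ^ (γ - ω)) atTop atTop :=
      (tendsto_rpow_atTop (by linarith)).const_mul_atTop hc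
    apply tendsto_atTop_mono' atTop _ h3
    filter_upwards [eventually_ge_atTop 1] with t ht
    exact h1 t ht
  have h3 : Tendsto (fun t : ℝ => ((t ^ γ * psiPlus (th hm) t : ℝ) : EReal)) atTop (𝓝 ⊤) :=
    EReal.tendsto_coe_nhds_top_iff.2 h2
  rw [h3.liminf_eq] at hγ
  exact lt_irrefl _ hγ

end

/-- Sanity check: the exponent is never negative, so the bounds below are not vacuous. -/
theorem omegaPlus_nonneg {m : ℕ} (Θ : Fin m → ℝ) : 0 ≤ omegaPlus Θ := by
  unfold omegaPlus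
  apply le_sSup
  refine ⟨0, ?_, rfl⟩
  have h : ∀ᶠ t : ℝ in atTop,
      ((t ^ (0 : ℝ) * psiPlus Θ t : ℝ) : EReal) ≤ ((1 / 2 : ℝ) : EReal) := by
    filter_upwards [eventually_ge_atTop 1] with t ht
    obtain ⟨x, hx, hxe⟩ := psiPlus_mem Θ t ht
    rw [hxe, Real.rpow_zero, one_mul, EReal.coe_le_coe_iff]
    exact abs_sub_round _
  have h2 : liminf (fun t : ℝ => ((t ^ (0 : ℝ) * psiPlus Θ t : ℝ) : EReal)) atTop
      ≤ ((1 / 2 : ℝ) : EReal) := by
    refine (liminf_le_liminf h).trans ?_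
    rw [liminf_const]
  exact h2.trans_lt (EReal.coe_lt_top _)

/-- **Main theorem.** For every `m ≥ 2` there is `Θ = (θ¹, ..., θᵐ)` with `1, θ¹, ..., θᵐ`
linearly independent over `ℤ` and `ω₊(Θ)` at most the golden ratio; in particular
`ω₊(Θ) < 2`. -/
theorem result (m : ℕ) (hm : 2 ≤ m) : ∃ Θ : Fin m → ℝ,
    LinearIndependent ℤ (Fin.cons (1 : ℝ) Θ : Fin (m + 1) → ℝ) ∧
      omegaPlus Θ ≤ (((1 + √5) / 2 : ℝ) : EReal) ∧ omegaPlus Θ < 2 := by
  have hm' : 0 < m := by omega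
  have h1 := omega_le hm'
  refine ⟨th hm', lin_indep hm', h1, h1.trans_lt ?_⟩
  have : ((2 : ℝ) : EReal) = 2 := rfl
  rw [← this, EReal.coe_lt_coe_iff]
  exact Real.goldenRatio_lt_two

end Pool.Agent.Results.MP_fe6546_nt.Full
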